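import Pool.Agent.H32.BJ.Def
import Pool.Agent.H10.FTM.Cls
import Pool.Agent.H58.KN.Final

/-!
# The inputs of the maximal inequality in dimension `m + 1`

* `FillStmt m`: filling the times of a family of lines with live times does not increase the
  information of the point (the only input about live times);
* `BoxUJ m E`: the label theorem for uniform times inside every cell of a body of functions of the
  class `V_E`, with labels in `V_E`, the volumes being measured by the Jacobians of the bodies along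
  the line.
-/

set_option autoImplicit false

namespace Pool.KNB

open Finset Real MvPolynomial
open Pool.Agent.H49.Ent Pool.Agent.H32.Dense Pool.STK Pool.KA Pool.KM7
open Pool.SH (Ln lpos)
open Pool.GEN (pnt)
open Pool.BJ (Ix mon dM mnr jm JF)

/-! ### The class of the functions -/

/-- The exponents with a variable of the space: degree at most `E` in each variable. -/
abbrev Jx (m E : ℕ) : Type := {α : Ix m E // ∃ k : Fin m, α (some k) ≠ 0}

/-- The dimension of the class. -/
noncomputable def nJ (m E : ℕ) : ℕ := Fintype.card (Jx m E)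

/-- The monomials of the class. -/
noncomputable def mo {m E : ℕ} (a : Fin (nJ m E)) : MvPolynomial (Option (Fin m)) ℝ :=
  mon ((Fintype.equivFin (Jx m E)).symm a).1

/-- Combinations of functions. -/
noncomputable def cmb {m N : ℕ} (A : Matrix (Fin N) (Fin N) ℝ)
    (F : Fin N → MvPolynomial (Option (Fin m)) ℝ) (a : Fin N) : MvPolynomial (Option (Fin m)) ℝ :=
  ∑ b, C (A a b) * F b

variable {m : ℕ}

/-! ### Lines -/

/-- The value of a function on a line. -/
noncomputable def ev (F : MvPolynomial (Option (Fin m)) ℝ) (l : Ln m) (t : ℝ) : ℝ :=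
  eval (pnt t (lpos l t)) F

/-- Two lines in a common cell of the body, during the window. -/
def Nr {N : ℕ} (F : Fin N → MvPolynomial (Option (Fin m)) ℝ) (l l' : Ln m) : Prop :=
  ∀ t ∈ Set.Icc (0 : ℝ) 1, ∀ a, |ev (F a) l t - ev (F a) l' t| ≤ 1

/-- The size of a minor of the body along the line, during the window. -/
noncomputable def sS {N : ℕ} (F : Fin N → MvPolynomial (Option (Fin m)) ℝ) (S : Fin m → Fin N)
    (l : Ln m) : ℝ :=
  sSup ((fun t => |mnr (dM F (pnt t (lpos l t))) S|) '' Set.Icc (0 : ℝ) 1)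

/-- The Jacobian of the body along the line, during the window. -/
noncomputable def sJ {N : ℕ} (F : Fin N → MvPolynomial (Option (Fin m)) ℝ) (l : Ln m) : ℝ :=
  sSup ((fun t => JF F (pnt t (lpos l t))) '' Set.Icc (0 : ℝ) 1)

/-- The point cell: the values of `m` functions of the body, at resolution `2 ^ (-k)`. -/
noncomputable def pcl {N : ℕ} (k : ℕ) (F : Fin N → MvPolynomial (Option (Fin m)) ℝ)
    (S : Fin m → Fin N) (l : Ln m) (t : ℝ) : Fin m → ℤ :=
  fun i => ⌊(2 : ℝ) ^ k * ev (F (S i)) l t⌋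

/-! ### The inputs -/

/-- **(I1)** Filling live times does not increase the information of the point. -/
def FillStmt (M : ℕ) : Prop := Pool.FTM.VVS (m := M) (fun _ _ => True)

/-- **(I2)** The label theorem for uniform times in the cells of the bodies of the class `V_E`. -/
def BoxUJ (m E : ℕ) : Prop :=
  ∃ C₀ : ℝ, 0 < C₀ ∧ ∀ ε : ℝ, 0 < ε → ∃ k₀ : ℕ, ∀ k ≥ k₀,
    ∀ (Ω ζ : Type) (_ : Fintype Ω) (p : Ω → ℝ), IsLaw p →
    ∀ (l : Ω → Ln m) (Z : Ω → ζ) (A : ζ → Matrix (Fin (nJ m E)) (Fin (nJ m E)) ℝ)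
      (S : Ω → Fin m → Fin (nJ m E)), (∀ z, IsUnit (A z)) →
    (∀ ω ω', 0 < p ω → 0 < p ω' → Z ω = Z ω' → Nr (cmb (A (Z ω)) mo) (l ω) (l ω')) →
    (∀ ω, 0 < p ω → sJ (cmb (A (Z ω)) mo) (l ω) ≤ 2 * sS (cmb (A (Z ω)) mo) (S ω) (l ω)) →
    ∃ (W : Type) (_ : Fintype W) (p' : W → ℝ) (pr : W → Ω) (κ : Type) (B : W → κ)
      (A' : ζ → κ → Matrix (Fin (nJ m E)) (Fin (nJ m E)) ℝ),
      IsLaw p' ∧ Psh p' pr p ∧
      (∀ w, 0 < p' w → ∃ Q Q' : Matrix (Fin (nJ m E)) (Fin (nJ m E)) ℝ,
        A' (Z (pr w)) (B w) = Q' * A (Z (pr w)) ∧ (∀ a b, |Q' a b| ≤ C₀ * 2 ^ k) ∧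
        A (Z (pr w)) = Q * A' (Z (pr w)) (B w) ∧ (∀ a b, |Q a b| ≤ C₀)) ∧
      (∀ w w', 0 < p' w → 0 < p' w' → Z (pr w) = Z (pr w') → B w = B w' →
        Nr (cmb (A' (Z (pr w)) (B w)) mo) (l (pr w)) (l (pr w'))) ∧
      CH p' B (fun w => Z (pr w)) +
          Ex p' (fun w => -Real.log (sJ (cmb (A' (Z (pr w)) (B w)) mo) (l (pr w)))) ≤
        CH (Pool.FTM.un (2 ^ k) p)
            (fun w => (S w.1, pcl k (cmb (A (Z w.1)) mo) (S w.1) (l w.1) ((w.2 : ℕ) / 2 ^ k)))
            (fun w => ((w.2 : ℕ), Z w.1)) -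
          m * (k * Real.log 2) -
          Ex p (fun ω => Real.log (sS (cmb (A (Z ω)) mo) (S ω) (l ω))) + ε * k

/-- **The machine**: the two inputs give the bound by the cost of the times. -/
def MachStmt (m E : ℕ) : Prop :=
  (∀ M, FillStmt M) → BoxUJ m E → Pool.KN.BNStmt m

/-- The maximal function inequality from the inputs. -/
theorem q1_of_inputs {m E : ℕ} (hm : 1 ≤ m) (hM : MachStmt m E) (h1 : ∀ M, FillStmt M)
    (h2 : BoxUJ m E) {q : ENNReal} (hq : ENNReal.ofReal (1 + 1 / (m : ℝ)) < q) :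
    Pool.KFIN.Q1 m q :=
  Pool.KN.q1_of_bn hm (hM h1 h2) hq

end Pool.KNB
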